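import Mathlib

namespace Pool.Agent.H.MP_cb63a5_lc

open SimpleGraph

variable {α : Type}

/-- some maximum matching has an alternating even cycle of length at most `L` -/
def SAC (G : SimpleGraph α) (L : ℕ) : Prop := ∃ M : G.Subgraph, M.IsMatching ∧
  (∀ N : G.Subgraph, N.IsMatching → N.edgeSet.ncard ≤ M.edgeSet.ncard) ∧
  ∃ u, ∃ c : G.Walk u u, c.IsCycle ∧ Even c.length ∧ c.length ≤ L ∧
    2 * {e | e ∈ c.edges ∧ e ∈ M.edgeSet}.ncard = c.length

variable [Finite α] {G : SimpleGraph α}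

theorem cov {M : G.Subgraph} (hM : M.IsMatching) (S : Set (Sym2 α)) (h : S ⊆ M.edgeSet) :
    {v | ∃ e ∈ S, v ∈ e}.ncard = 2 * S.ncard := by
  induction S, Set.toFinite S using Set.Finite.induction_on with
  | empty => simp
  | @insert e S he _ ih =>
    induction e using Sym2.ind with
    | h a b =>
    have hab : M.Adj a b := h (Set.mem_insert _ _)
    have k : ∀ a b, M.Adj a b → s(a, b) ∉ S → a ∉ {v | ∃ e ∈ S, v ∈ e} := by
      rintro a b h1 h2 ⟨e, h3, h4⟩
      obtain ⟨c, rfl⟩ := Sym2.mem_iff_exists.1 h4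
      exact h2 (hM.eq_of_adj_left h1 (h (Set.mem_insert_of_mem _ h3)) ▸ h3)
    have : {v | ∃ e ∈ insert s(a, b) S, v ∈ e} = insert a (insert b {v | ∃ e ∈ S, v ∈ e}) := by
      ext; simp [or_assoc]
    rw [this, Set.ncard_insert_of_notMem (by simp [hab.ne, k a b hab he]), Set.ncard_insert_of_notMem
      (k b a hab.symm (by rwa [Sym2.eq_swap])), ih fun _ k => h (Set.mem_insert_of_mem _ k),
      Set.ncard_insert_of_notMem he]
    ring

theorem full {μ : α → α} (h1 : ∀ v, G.Adj v (μ v)) (h2 : ∀ v, μ (μ v) = v) : ∃ M : G.Subgraph,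
    M.IsMatching ∧ (∀ u v, M.Adj u v ↔ μ u = v) ∧ 2 * M.edgeSet.ncard = Nat.card α := by
  let M : G.Subgraph := ⟨Set.univ, fun u v => μ u = v, fun h => h ▸ h1 _, fun _ => trivial,
    ⟨fun _ _ h => h ▸ h2 _⟩⟩
  have m : M.IsMatching := fun v _ => ⟨μ v, rfl, fun _ h => Eq.symm h⟩
  refine ⟨M, m, fun _ _ => Iff.rfl, ?_⟩
  rw [← cov m _ subset_rfl, ← Set.ncard_univ]
  exact congrArg _ (Set.eq_univ_of_forall fun v => ⟨s(v, μ v), rfl, by simp⟩)

theorem sac_to {ν : α → α} (h1 : ∀ v, G.Adj v (ν v)) (h2 : ∀ v, ν (ν v) = v) {L} (h : SAC G L) :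
    ∃ (W : Set α) (μ : α → α), W.Nonempty ∧ W.ncard ≤ L ∧
      (∀ v ∈ W, ∃ a ∈ W, ∃ b ∈ W, a ≠ b ∧ G.Adj v a ∧ G.Adj v b) ∧
      ∀ v ∉ W, μ v ∉ W ∧ G.Adj v (μ v) ∧ μ (μ v) = v := by
  obtain ⟨M, m1, m2, u, c, c1, -, c2, c3⟩ := h
  obtain ⟨N, n1, -, n2⟩ := full h1 h2
  have a := Set.eq_univ_iff_forall.1 (Set.eq_of_subset_of_ncard_le (Set.subset_univ {v | ∃ e ∈ M.edgeSet, v ∈ e})
    (by rw [cov m1 _ subset_rfl, Set.ncard_univ]; have := m2 N n1; omega))
  have b : ∀ v, ∃ w, M.Adj v w := fun v => by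
    obtain ⟨e, h3, h4⟩ := a v
    obtain ⟨c, rfl⟩ := Sym2.mem_iff_exists.1 h4
    exact ⟨c, h3⟩
  choose μ hμ using b
  have i : ∀ v, μ (μ v) = v := fun v => m1.eq_of_adj_left (hμ _) (hμ v).symm
  have w : {v | v ∈ c.support}.ncard = c.length := by
    classical
    have : {v | v ∈ c.support} = c.support.tail.toFinset := by
      ext v
      simpa [c.mem_support_iff] using fun h => h ▸ Walk.end_mem_tail_support c1.not_nil
    rw [this, Set.ncard_coe_finset, List.toFinset_card_of_nodup c1.support_nodup]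
    simp
  have s := Set.eq_of_subset_of_ncard_le (s := {v | ∃ e ∈ {e | e ∈ c.edges ∧ e ∈ M.edgeSet}, v ∈ e})
    (t := {v | v ∈ c.support}) (fun v ⟨e, h3, h4⟩ => Walk.mem_support_of_mem_edges h3.1 h4)
    (by rw [cov m1 _ fun _ h => h.2]; omega)
  refine ⟨{v | v ∈ c.support}, μ, ⟨u, c.start_mem_support⟩, by omega, fun v hv => ?_,
    fun v hv => ⟨fun k => hv ?_, (hμ v).adj_sub, i v⟩⟩
  · obtain ⟨a, b, e, k⟩ := Set.ncard_eq_two.1 (c1.ncard_neighborSet_toSubgraph_eq_two hv)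
    have ha : c.toSubgraph.Adj v a := k.ge (by simp)
    have hb : c.toSubgraph.Adj v b := k.ge (by simp)
    exact ⟨a, c.mem_verts_toSubgraph.1 ha.snd_mem, b, c.mem_verts_toSubgraph.1 hb.snd_mem, e, ha.adj_sub, hb.adj_sub⟩
  · obtain ⟨e, h3, h4⟩ := s.ge k
    obtain ⟨w, rfl⟩ := Sym2.mem_iff_exists.1 h4
    rw [m1.eq_of_adj_left (hμ v).symm h3.2]
    exact c.snd_mem_support_of_mem_edges h3.1

theorem sac_of {μ : α → α} (h1 : ∀ v, G.Adj v (μ v)) (h2 : ∀ v, μ (μ v) = v) {k : ℕ} (hk : 2 ≤ k)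
    (f : ℕ → α) (f1 : ∀ t, G.Adj (f t) (f (t + 1))) (f2 : f (2 * k) = f 0)
    (f3 : ∀ s < 2 * k, ∀ t < 2 * k, f s = f t → s = t) (f4 : ∀ t, μ (f (2 * t)) = f (2 * t + 1)) :
    SAC G (2 * k) := by
  obtain ⟨M, m1, m2, m3⟩ := full h1 h2
  have w : ∀ n, ∃ p : G.Walk (f 0) (f n), p.support = (List.range (n + 1)).map f ∧
      p.edges = (List.range n).map fun t => s(f t, f (t + 1)) := fun n => by
    induction n with
    | zero => exact ⟨.nil, by simp⟩
    | succ n ih =>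
      obtain ⟨p, a, b⟩ := ih
      exact ⟨p.concat (f1 n), by simp [a, List.range_succ (n := n + 1)], by simp [b, List.range_succ]⟩
  obtain ⟨p, a, b⟩ := w (2 * k)
  have l : p.length = 2 * k := by rw [← p.length_edges, b]; simp
  have g : ∀ s ≤ 2 * k, ∀ t ≤ 2 * k, f s = f t → s % (2 * k) = t % (2 * k) := fun s hs t ht e => by
    have : ∀ s ≤ 2 * k, f (s % (2 * k)) = f s := fun s hs => by
      obtain rfl | h := hs.eq_or_lt
      · simp [f2]
      · rw [Nat.mod_eq_of_lt h]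
    exact f3 _ (Nat.mod_lt _ (by omega)) _ (Nat.mod_lt _ (by omega)) (by rw [this s hs, this t ht, e])
  have g' : ∀ s ≤ 2 * k, ∀ t ≤ 2 * k, f s = f t → s = t ∨ s + 2 * k = t ∨ s = t + 2 * k := fun s hs t ht e => by
    have := g s hs t ht e
    obtain rfl | h := hs.eq_or_lt <;> obtain rfl | h' := ht.eq_or_lt <;> simp [Nat.mod_eq_of_lt, *] at * <;> omega
  refine ⟨M, m1, fun N n => by
    have := cov n _ subset_rfl
    have := Set.ncard_le_card {v | ∃ e ∈ N.edgeSet, v ∈ e}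
    omega, f 0, p.copy rfl f2, Walk.isCycle_iff_isPath_tail_and_le_length.2 ⟨?_, by simp [l]; omega⟩,
    by simp [l], by simp [l], ?_⟩
  · rw [Walk.isPath_def, Walk.support_tail_of_not_nil _ (by simp [← Walk.length_eq_zero_iff, l]; omega),
      Walk.support_copy, a, List.range_succ_eq_map]
    simp only [List.map_cons, List.tail_cons, List.map_map]
    exact List.nodup_range.map_on fun s hs t ht e => by
      have := g' _ (List.mem_range.1 hs) _ (List.mem_range.1 ht) e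
      rw [List.mem_range] at hs ht
      omega
  · have : {e | e ∈ (p.copy rfl f2).edges ∧ e ∈ M.edgeSet} =
        (fun t => s(f (2 * t), f (2 * t + 1))) '' Set.Iio k := by
      ext e
      simp only [Walk.edges_copy, b, List.mem_map, List.mem_range, Set.mem_ofPred_eq, Set.mem_image, Set.mem_Iio]
      refine ⟨?_, ?_⟩
      · rintro ⟨⟨t, ht, rfl⟩, h⟩
        obtain ⟨s, rfl | rfl⟩ := t.even_or_odd'
        · exact ⟨s, by omega, rfl⟩
        · have := (m2 _ _).1 h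
          rw [← f4, h2] at this
          have := g' _ (by omega) _ (by omega) this
          omega
      · rintro ⟨t, ht, rfl⟩
        exact ⟨⟨_, by omega, rfl⟩, (m2 _ _).2 (f4 t)⟩
    rw [this, Set.InjOn.ncard_image, Set.ncard_Iio_nat, Walk.length_copy, l]
    intro s hs t ht e
    simp only [Sym2.eq_iff, Set.mem_Iio] at e hs ht
    obtain e | e := e <;> have := f3 _ (by omega) _ (by omega) e.1 <;> omega

end Pool.Agent.H.MP_cb63a5_lc
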