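import Mathlib

namespace Pool.Agent.H.MP_cb63a5_lc

abbrev V := ℕ × ℕ × ℕ × ℕ

def In (n m l : ℕ) (v : V) : Prop := v.1 = 0 ∧ v.2.1 < n ∧ v.2.2 = (0, 0) ∨
  v.1 = 1 ∧ v.2.1 < n ∧ v.2.2.1 < 2 ∧ v.2.2.2 ≤ 2 * m ∨ v.1 = 2 ∧ v.2.1 < n + 2 * m ∧ v.2.2 = (0, 0) ∨
  v.1 = 3 ∧ v.2.1 < n + 2 * m ∧ v.2.2.1 < 3 ∧ v.2.2.2 < 2 * l

def att (n : ℕ) (ℓ : ℕ → ℕ → ℕ × Bool) (q k : ℕ) : V := if q < n then (1, q, k % 2, 0) else
  (1, (ℓ ((q - n) / 2) k).1, if (ℓ ((q - n) / 2) k).2 then 1 else 0, q - n + 1)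

def E (n m l : ℕ) (ℓ : ℕ → ℕ → ℕ × Bool) (u v : V) : Prop :=
  u.1 = 0 ∧ v = (1, u.2.1, v.2.2.1, 0) ∨ u.1 = 1 ∧ v = (1, u.2.1, u.2.2.1, u.2.2.2 + 1) ∨
  u.1 = 1 ∧ u.2.2.2 = 2 * m ∧ v = (0, if u.2.1 + 1 < n then u.2.1 + 1 else 0, 0, 0) ∨
  u.1 = 2 ∧ v = (3, u.2.1, v.2.2.1, 0) ∨ u.1 = 3 ∧ v = (3, u.2.1, u.2.2.1, u.2.2.2 + 1) ∨
  u.1 = 3 ∧ u.2.2.2 + 1 = 2 * l ∧ v = att n ℓ u.2.1 u.2.2.1

def A (n m l : ℕ) (ℓ : ℕ → ℕ → ℕ × Bool) (u v : V) : Prop :=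
  In n m l u ∧ In n m l v ∧ (E n m l ℓ u v ∨ E n m l ℓ v u)

def mu (n l : ℕ) (ℓ : ℕ → ℕ → ℕ × Bool) (κ : ℕ → ℕ) : V → V
  | (0, i, _, _) => (1, i, 1 - κ i % 2, 0)
  | (1, i, s, 0) => if κ i % 2 = s then (3, i, κ i, 2 * l - 1) else (0, i, 0, 0)
  | (1, i, s, t + 1) => if att n ℓ (n + t) (κ (n + t)) = (1, i, s, t + 1) then (3, n + t, κ (n + t), 2 * l - 1)
      else (1, i, s, if t % 2 = 0 then t + 2 else t)
  | (2, q, _, _) => (3, q, κ q, 0)
  | (_, q, k, t) => if k = κ q then (if t = 0 then (2, q, 0, 0) else if t + 1 = 2 * l then att n ℓ q k else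
      (3, q, k, if t % 2 = 1 then t + 1 else t - 1)) else (3, q, k, if t % 2 = 0 then t + 1 else t - 1)

variable {n m l : ℕ} {ℓ : ℕ → ℕ → ℕ × Bool}

theorem E_ne {u v} (h : E n m l ℓ u v) : u ≠ v := by
  rintro rfl
  simp only [E, att] at h
  grind

theorem in_att (hl : ∀ c k, (ℓ c k).1 < n) {q} (h : q < n + 2 * m) (k) : In n m l (att n ℓ q k) := by
  have := hl ((q - n) / 2) k
  simp only [In, att]
  grind

theorem pm (hl : ∀ c k, (ℓ c k).1 < n) (h0 : 0 < l) {κ : ℕ → ℕ} (h1 : ∀ q, κ q < 3)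
    (h2 : ∀ c, κ (n + (2 * c + 1)) = κ (n + 2 * c)) {v} (h : In n m l v) :
    A n m l ℓ v (mu n l ℓ κ v) ∧ mu n l ℓ κ (mu n l ℓ κ v) = v := by
  obtain ⟨a, i, s, t⟩ := v
  have := h1 i
  refine ⟨⟨h, ?_⟩, ?_⟩
  all_goals obtain ⟨rfl, h⟩ | ⟨rfl, h⟩ | ⟨rfl, h⟩ | ⟨rfl, h⟩ := h <;> simp only [Prod.mk.injEq] at h
  · simp [mu, In, E, h]
  · cases t with
    | zero => simp only [mu]; split_ifs <;> simp [In, E, att, *] <;> omega
    | succ t =>
      have := h1 (n + t)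
      simp only [mu]
      split_ifs with e <;> simp [In, E, *] <;> omega
  · simp [mu, In, E, *]
  · have := in_att (l := l) hl h.1 s
    simp only [mu]
    split_ifs with e1 e2 e3
    · simp [E, In, *]
    · exact ⟨this, by simp [E, e3]⟩
    all_goals simp [E, In, *]; omega
  · obtain ⟨-, rfl, rfl⟩ := h
    simp only [mu]
    rw [if_neg (by omega)]
  · cases t with
    | zero =>
      simp only [mu]
      split_ifs <;> simp [att, *] <;> grind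
    | succ t =>
      obtain ⟨c, rfl | rfl⟩ := t.even_or_odd'
      · have := h2 c
        simp only [mu]
        split_ifs with e <;> (try simp [mu, *]) <;> grind [att]
      · have := h2 c
        simp only [mu]
        split_ifs with e <;> (try simp [mu, *]) <;> grind [att]
  · obtain ⟨-, rfl, rfl⟩ := h
    simp [mu]
  · simp only [mu]
    split_ifs with e1 e2 e3
    · simp [mu, *]
    · subst e1
      unfold att
      split_ifs <;> simp [mu, att, *] <;> grind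
    all_goals simp [mu, *] <;> grind

theorem n3 (q k t x) : A n m l ℓ (3, q, k, t) x → x = (if t = 0 then (2, q, 0, 0) else (3, q, k, t - 1)) ∨
    x = if t + 1 = 2 * l then att n ℓ q k else (3, q, k, t + 1) := by
  obtain ⟨a, i, s, r⟩ := x
  have : ∀ q k, (att n ℓ q k).1 = 1 := fun q k => by unfold att; split_ifs <;> rfl
  rintro ⟨h1, h2, h | h⟩ <;> simp only [In, E] at * <;> grind

theorem n2 (q x) (h : A n m l ℓ (2, q, 0, 0) x) : ∃ k < 3, x = (3, q, k, 0) := by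
  obtain ⟨a, i, s, r⟩ := x
  refine ⟨s, ?_⟩
  simp only [A, In, E, att] at h
  grind

theorem n1 (i s t x) (hx : x.1 ≠ 3) : A n m l ℓ (1, i, s, t) x →
    x = (if t = 0 then (0, i, 0, 0) else (1, i, s, t - 1)) ∨
      x = if t = 2 * m then (0, if i + 1 < n then i + 1 else 0, 0, 0) else (1, i, s, t + 1) := by
  obtain ⟨a, j, r, u⟩ := x
  rintro ⟨h1, h2, h | h⟩ <;> simp only [In, E] at * <;> grind

theorem n0 (i x) : A n m l ℓ (0, i, 0, 0) x → x = (1, i, 0, 0) ∨ x = (1, i, 1, 0) ∨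
    x = (1, if i = 0 then n - 1 else i - 1, 0, 2 * m) ∨ x = (1, if i = 0 then n - 1 else i - 1, 1, 2 * m) := by
  obtain ⟨a, j, r, u⟩ := x
  have : ∀ q k, (att n ℓ q k).1 = 1 := fun q k => by unfold att; split_ifs <;> rfl
  rintro ⟨h1, h2, h | h⟩ <;> simp only [In, E] at * <;> grind

theorem sound {W : Set V} {μ : V → V} (hW : ∀ v ∈ W, In n m l v) (w0 : W.Nonempty) (wf : W.Finite)
    (w1 : W.ncard < 2 * l) (w2 : ∀ v ∈ W, ∃ a ∈ W, ∃ b ∈ W, a ≠ b ∧ A n m l ℓ v a ∧ A n m l ℓ v b)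
    (w3 : ∀ v, In n m l v → v ∉ W → μ v ∉ W ∧ A n m l ℓ v (μ v) ∧ μ (μ v) = v) (hl : ∀ c k, (ℓ c k).1 < n) :
    ∃ σ : ℕ → Bool, ∀ c < m, ∃ k < 3, σ (ℓ c k).1 = (ℓ c k).2 := by
  classical
  have s1 : ∀ q k t, (3, q, k, t) ∉ W := fun q k t h => by
    have a : ∀ t, (3, q, k, t) ∈ W → (3, q, k, t - 1) ∈ W ∧ (t + 1 < 2 * l → (3, q, k, t + 1) ∈ W) := fun t h => by
      obtain ⟨a, a1, b, b1, e, a2, b2⟩ := w2 _ h
      have a3 := n3 _ _ _ _ a2
      have b3 := n3 _ _ _ _ b2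
      clear * - a3 b3 a1 b1 e h
      grind
    have b : (3, q, k, 0) ∈ W := by
      induction t with
      | zero => exact h
      | succ t ih => exact ih (a _ h).1
    have c : ∀ t < 2 * l, (3, q, k, t) ∈ W := fun t => by
      induction t with
      | zero => exact fun _ => b
      | succ t ih => exact fun h => (a _ (ih (by omega))).2 h
    have := Set.ncard_le_ncard_of_injOn (s := Set.Iio (2 * l)) (fun t => (3, q, k, t)) c (fun _ _ _ _ => by simp) wf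
    rw [Set.ncard_Iio_nat] at this
    omega
  have s2 : ∀ q, (2, q, 0, 0) ∉ W := fun q h => by
    obtain ⟨a, a1, -, -, -, a2, -⟩ := w2 _ h
    obtain ⟨k, -, rfl⟩ := n2 _ _ a2
    exact s1 _ _ _ a1
  have s3 : ∀ q < n + 2 * m, ∃ k < 3, att n ℓ q k ∉ W := fun q hq => by
    obtain ⟨-, a, b⟩ := w3 (2, q, 0, 0) (by simp [In, hq]) (s2 q)
    obtain ⟨k, hk, e⟩ := n2 _ _ a
    have c : ∀ j < l, μ (3, q, k, 2 * j) ≠ (3, q, k, 2 * j + 1) → μ (3, q, k, 2 * j + 1) ∉ W ∧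
        μ (μ (3, q, k, 2 * j + 1)) = (3, q, k, 2 * j + 1) ∧ μ (3, q, k, 2 * j + 1) =
          if 2 * j + 1 + 1 = 2 * l then att n ℓ q k else (3, q, k, 2 * j + 1 + 1) := fun j hj h => by
      obtain ⟨a, b, c⟩ := w3 (3, q, k, 2 * j + 1) (by simp [In, hq, hk]; omega) (s1 _ _ _)
      refine ⟨a, c, (n3 _ _ _ _ b).resolve_left fun e => h ?_⟩
      rw [e] at c
      simpa using c
    have d : ∀ j < l, μ (3, q, k, 2 * j) ≠ (3, q, k, 2 * j + 1) := fun j => by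
      induction j with
      | zero => intro _; rw [← e, b]; simp
      | succ j ih =>
        intro h
        obtain ⟨-, c1, c2⟩ := c j (by omega) (ih (by omega))
        rw [c2, if_neg (by omega)] at c1
        rw [mul_add, c1]
        simp
    obtain ⟨c1, -, c2⟩ := c (l - 1) (by omega) (d _ (by omega))
    rw [c2, if_pos (by omega)] at c1
    exact ⟨k, hk, c1⟩
  have s4 : ∀ i s t, (1, i, s, t) ∈ W → (if t = 0 then (0, i, 0, 0) else (1, i, s, t - 1)) ∈ W ∧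
      (if t = 2 * m then (0, if i + 1 < n then i + 1 else 0, 0, 0) else (1, i, s, t + 1)) ∈ W := fun i s t h => by
    have z : ∀ x ∈ W, x.1 ≠ 3 := by
      rintro ⟨_, _, _, _⟩ hx rfl
      exact s1 _ _ _ hx
    obtain ⟨a, a1, b, b1, e, a2, b2⟩ := w2 _ h
    obtain h | h := n1 _ _ _ _ (z _ a1) a2 <;> obtain k | k := n1 _ _ _ _ (z _ b1) b2
    exacts [(e (h.trans k.symm)).elim, ⟨h ▸ a1, k ▸ b1⟩, ⟨k ▸ b1, h ▸ a1⟩, (e (h.trans k.symm)).elim]
  have s5 : ∀ i s, ∀ t ≤ 2 * m, ((1, i, s, t) ∈ W ↔ (1, i, s, 0) ∈ W) := fun i s t => by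
    induction t with
    | zero => simp
    | succ t ih =>
      intro h
      rw [← ih (by omega)]
      exact ⟨fun k => by simpa using (s4 _ _ _ k).1, fun k => by simpa [show t ≠ 2 * m by omega] using (s4 _ _ _ k).2⟩
  have s6 : ∀ i < n, ¬ ((1, i, 0, 0) ∈ W ∧ (1, i, 1, 0) ∈ W) := fun i hi h => by
    obtain ⟨k, -, e⟩ := s3 i (by omega)
    obtain z | z := Nat.mod_two_eq_zero_or_one k <;> simp [att, hi, z, h] at e
  have s7 : ∀ i, (0, i, 0, 0) ∈ W → (1, i, 0, 0) ∈ W ∨ (1, i, 1, 0) ∈ W := fun i h => by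
    obtain ⟨a, a1, b, b1, e, a2, b2⟩ := w2 _ h
    have a3 := n0 _ _ a2
    have b3 := n0 _ _ b2
    have hi : i < n := by simpa [In] using hW _ h
    have := s6 (if i = 0 then n - 1 else i - 1) (by split_ifs <;> omega)
    rw [← s5 _ 0 _ le_rfl, ← s5 _ 1 _ le_rfl] at this
    by_contra! z
    clear * - this z a3 b3 a1 b1 e
    grind
  have s8 : ∀ i, (0, i, 0, 0) ∈ W → (0, if i + 1 < n then i + 1 else 0, 0, 0) ∈ W := fun i h => by
    obtain h | h := s7 i h <;> simpa using (s4 _ _ _ ((s5 _ _ _ le_rfl).2 h)).2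
  have s9 : ∀ i j, i ≤ j → j < n → (0, i, 0, 0) ∈ W → (0, j, 0, 0) ∈ W := fun i j h => by
    induction h with
    | refl => exact fun _ h => h
    | step _ ih => exact fun a b => by simpa [a] using s8 _ (ih (by omega) b)
  obtain ⟨i, hi, h⟩ : ∃ i < n, (0, i, 0, 0) ∈ W := by
    obtain ⟨⟨a, i, s, t⟩, h⟩ := w0
    obtain ⟨rfl, k, e⟩ | ⟨rfl, k, -, e⟩ | ⟨rfl, -, e⟩ | ⟨rfl, -⟩ := hW _ h
    · cases e; exact ⟨i, k, h⟩
    · exact ⟨i, k, by simpa using (s4 _ _ _ ((s5 _ _ _ e).1 h)).1⟩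
    · cases e; exact (s2 _ h).elim
    · exact (s1 _ _ _ h).elim
  have z : (0, 0, 0, 0) ∈ W := by
    simpa [show ¬ n - 1 + 1 < n by omega] using s8 _ (s9 i (n - 1) (by omega) (by omega) h)
  refine ⟨fun i => decide ((1, i, 0, 0) ∈ W), fun c hc => ?_⟩
  obtain ⟨k, hk, e⟩ := s3 (n + 2 * c) (by omega)
  refine ⟨k, hk, ?_⟩
  have := s7 _ (s9 0 _ (by omega) (hl c k) z)
  simp only [att, add_lt_iff_neg_left, not_lt_zero, if_false, add_tsub_cancel_left, Nat.mul_div_right _ two_pos,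
    s5 _ _ (2 * c + 1) (by omega)] at e
  cases h : (ℓ c k).2 <;> simp_all

theorem step {R : ℕ} (h : 0 < R) (t : ℕ) : t % R + 1 < R ∧ (t + 1) % R = t % R + 1 ∧ (t + 1) / R = t / R ∨
    t % R + 1 = R ∧ (t + 1) % R = 0 ∧ (t + 1) / R = t / R + 1 := by
  have := Nat.mod_lt t h
  have e := Nat.div_add_mod t R
  by_cases c : t % R + 1 < R
  · exact .inl ⟨c, ((Nat.div_mod_unique h).2 ⟨by omega, c⟩).symm⟩
  · exact .inr ⟨by omega, ((Nat.div_mod_unique h).2 ⟨by rw [mul_add]; omega, h⟩).symm⟩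

def cy (n m : ℕ) (σ : ℕ → Bool) (t : ℕ) : V := if t % (2 * (m + 1)) = 0 then (0, t / (2 * (m + 1)) % n, 0, 0)
  else (1, t / (2 * (m + 1)) % n, if σ (t / (2 * (m + 1)) % n) then 0 else 1, t % (2 * (m + 1)) - 1)

theorem complete (h0 : 0 < n) {σ : ℕ → Bool} {κ : ℕ → ℕ} (k1 : ∀ q < n, κ q = if σ q then 1 else 0)
    (k2 : ∀ c < m, σ (ℓ c (κ (n + 2 * c))).1 = (ℓ c (κ (n + 2 * c))).2) :
    (∀ t, A n m l ℓ (cy n m σ t) (cy n m σ (t + 1))) ∧ cy n m σ (2 * (n * (m + 1))) = cy n m σ 0 ∧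
    (∀ s < 2 * (n * (m + 1)), ∀ t < 2 * (n * (m + 1)), cy n m σ s = cy n m σ t → s = t) ∧
    ∀ t, mu n l ℓ κ (cy n m σ (2 * t)) = cy n m σ (2 * t + 1) := by
  have p : 0 < 2 * (m + 1) := by omega
  have i : ∀ t, In n m l (cy n m σ t) := fun t => by
    have := Nat.mod_lt t p
    have := Nat.mod_lt (t / (2 * (m + 1))) h0
    simp only [In, cy]
    grind
  refine ⟨fun t => ⟨i _, i _, .inl ?_⟩, ?_, fun s hs t ht e => ?_, fun t => ?_⟩
  · have := step h0 (t / (2 * (m + 1)))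
    obtain h | h := step p t <;> simp only [E, cy, h] <;> grind
  · simp [cy, show 2 * (n * (m + 1)) = 2 * (m + 1) * n by ring]
  · have : ∀ s < 2 * (n * (m + 1)), s / (2 * (m + 1)) % n = s / (2 * (m + 1)) := fun s hs =>
      Nat.mod_eq_of_lt (Nat.div_lt_of_lt_mul (by linarith))
    rw [← Nat.div_add_mod s (2 * (m + 1)), ← Nat.div_add_mod t (2 * (m + 1))]
    simp only [cy, this s hs, this t ht] at e
    grind
  · have := Nat.mod_lt (2 * t / (2 * (m + 1))) h0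
    have a := Nat.mul_mod_mul_left 2 t (m + 1)
    obtain h | h := step p (2 * t)
    · simp only [cy, h, a]
      generalize 2 * t / (2 * (m + 1)) % n = i at *
      cases e : t % (m + 1) with
      | zero => simp [mu, k1 i this]; grind
      | succ c =>
        have := k2 c (by omega)
        simp [mu, att, mul_add]
        grind
    · omega

end Pool.Agent.H.MP_cb63a5_lc
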